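import Mathlib

set_option autoImplicit false

namespace Pool.Agent.H.MP_76760e_an

open Matrix Complex
open scoped ComplexOrder MatrixOrder ComplexConjugate

theorem psd_iff {ι : Type} [Fintype ι] (M : Matrix ι ι ℂ) :
    M.PosSemidef ↔ ∃ B : Matrix ι ι ℂ, M = Bᴴ * B := by
  classical
  refine ⟨fun h => ?_, fun ⟨B, h⟩ => h ▸ posSemidef_conjTranspose_mul_self B⟩
  exact CStarAlgebra.nonneg_iff_eq_star_mul_self.mp h.nonneg

def C (ι : Type) (d : ℝ) : Set (ι → ι → ℂ) := {M | (Matrix.of M).PosSemidef ∧ ∀ i, M i i = d}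

theorem C_bound {ι : Type} [Fintype ι] {d : ℝ} {M : ι → ι → ℂ} (h : M ∈ C ι d) (i j : ι) :
    ‖M i j‖ ≤ d := by
  obtain ⟨B, hB⟩ := (psd_iff _).mp h.1
  have e : ∀ i j, M i j = ∑ k, conj (B k i) * B k j := fun i j => by
    simpa [mul_apply] using congrFun (congrFun hB i) j
  have e2 : ∀ i, ∑ k, ‖B k i‖ ^ 2 = d := fun i => by
    have := (e i i).symm.trans (h.2 i)
    simp only [conj_mul'] at this
    exact_mod_cast this
  rw [e]
  refine (norm_sum_le _ _).trans ?_
  have : ∑ k, ‖conj (B k i) * B k j‖ ≤ ∑ k, (‖B k i‖ ^ 2 + ‖B k j‖ ^ 2) / 2 :=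
    Finset.sum_le_sum fun k _ => by
      rw [norm_mul, RCLike.norm_conj]
      nlinarith [sq_nonneg (‖B k i‖ - ‖B k j‖)]
  rw [← Finset.sum_div, Finset.sum_add_distrib, e2, e2] at this
  linarith

theorem C_compact (ι : Type) [Fintype ι] (d : ℝ) : IsCompact (C ι d) := by
  refine (isCompact_univ_pi fun i => isCompact_univ_pi fun j =>
    isCompact_closedBall (0 : ℂ) d).of_isClosed_subset ?_
    fun M h i _ j _ => mem_closedBall_zero_iff.mpr (C_bound h i j)
  simp only [C, posSemidef_iff_dotProduct_mulVec, Set.ofPred_and, Set.ofPred_forall,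
    IsHermitian.ext_iff]
  refine IsClosed.inter (IsClosed.inter ?_ ?_) ?_
  · exact isClosed_iInter fun i => isClosed_iInter fun j =>
      isClosed_eq (by simp only [of_apply]; fun_prop) (by simp only [of_apply]; fun_prop)
  · exact isClosed_iInter fun x => isClosed_le continuous_const
      (by simp only [dotProduct, mulVec, of_apply]; fun_prop)
  · exact isClosed_iInter fun i => isClosed_eq (by fun_prop) continuous_const

theorem C_convex (ι : Type) (d : ℝ) : Convex ℝ (C ι d) := by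
  intro M hM N hN a b ha hb hab
  refine ⟨(hM.1.smul ha).add (hN.1.smul hb), fun i => ?_⟩
  simp only [Pi.add_apply, Pi.smul_apply, hM.2, hN.2, ← add_smul, hab, one_smul]

def Hm (p : Fin 4 → ℝ) : Matrix (Fin 2) (Fin 2) ℂ := !![p 0, p 2 + p 3 * I; p 2 - p 3 * I, p 1]

theorem psd2 (p : Fin 4 → ℝ) (hp : ∀ i, |p i| ≤ 1 / 4) : (1 + Hm p).PosSemidef := by
  refine .of_dotProduct_mulVec_nonneg ?_ fun x => ?_
  · ext i j
    fin_cases i <;> fin_cases j <;> simp [Hm, sub_eq_add_neg]
  · have h0 := abs_le.mp (hp 0)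
    have h1 := abs_le.mp (hp 1)
    have h2 := abs_le.mp (hp 2)
    have h3 := abs_le.mp (hp 3)
    rw [Complex.le_def]
    simp [Hm, dotProduct, mulVec, Fin.sum_univ_two, one_apply]
    generalize (x 0).re = a
    generalize (x 0).im = b
    generalize (x 1).re = c
    generalize (x 1).im = d
    refine ⟨?_, by ring⟩
    nlinarith [mul_nonneg (sub_nonneg.2 h0.1) (add_nonneg (sq_nonneg a) (sq_nonneg b)),
      mul_nonneg (sub_nonneg.2 h1.1) (add_nonneg (sq_nonneg c) (sq_nonneg d)),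
      mul_nonneg (sub_nonneg.2 h2.1) (add_nonneg (sq_nonneg (a + c)) (sq_nonneg (b + d))),
      mul_nonneg (sub_nonneg.2 h2.2) (add_nonneg (sq_nonneg (a - c)) (sq_nonneg (b - d))),
      mul_nonneg (sub_nonneg.2 h3.1) (add_nonneg (sq_nonneg (a - d)) (sq_nonneg (b + c))),
      mul_nonneg (sub_nonneg.2 h3.2) (add_nonneg (sq_nonneg (a + d)) (sq_nonneg (b - c))),
      sq_nonneg a, sq_nonneg b, sq_nonneg c, sq_nonneg d]

theorem step {d : ℝ} {M : Fin 3 → Fin 3 → ℂ} (hM : M ∈ (C (Fin 3) d).extremePoints ℝ)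
    (V : Matrix (Fin 2) (Fin 3) ℂ) (h : (Matrix.of M - Vᴴ * V).PosSemidef) (i j : Fin 3) :
    V 0 i * V 1 j = V 0 j * V 1 i := by
  let W : Matrix (Fin 3) (Fin 4) ℝ := Matrix.of fun i => ![normSq (V 0 i), normSq (V 1 i),
    2 * (conj (V 0 i) * V 1 i).re, -2 * (conj (V 0 i) * V 1 i).im]
  obtain ⟨q, hq, q0⟩ := (Submodule.ne_bot_iff _).mp
    (W.mulVecLin.ker_ne_bot_of_finrank_lt (by simp))
  have n0 := norm_pos_iff.mpr q0
  set p := (4 * ‖q‖)⁻¹ • q with hp
  have p0 : p ≠ 0 := smul_ne_zero (by positivity) q0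
  have hp1 : W *ᵥ p = 0 := by rw [hp, mulVec_smul, show W *ᵥ q = 0 from hq, smul_zero]
  have hp2 : ∀ i, |p i| ≤ 1 / 4 := fun i => by
    have := norm_le_pi_norm q i
    rw [hp, Pi.smul_apply, smul_eq_mul, abs_mul, abs_of_pos (by positivity),
      inv_mul_le_iff₀ (by positivity)]
    rw [Real.norm_eq_abs] at this
    linarith
  have mem : ∀ p : Fin 4 → ℝ, W *ᵥ p = 0 → (∀ i, |p i| ≤ 1 / 4) →
      (M + fun i j => (Vᴴ * Hm p * V) i j) ∈ C (Fin 3) d := by
    intro p h1 h2
    refine ⟨?_, fun i => ?_⟩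
    · have := h.add ((psd2 p h2).conjTranspose_mul_mul_same V)
      rw [Matrix.mul_add, Matrix.mul_one, Matrix.add_mul, ← add_assoc, sub_add_cancel] at this
      exact this
    · have := congrFun h1 i
      simp [W, mulVec, dotProduct, Fin.sum_univ_four, normSq_apply] at this
      rw [Pi.add_apply, Pi.add_apply, hM.1.2, add_eq_left]
      apply Complex.ext <;> simp [Hm, mul_apply, Fin.sum_univ_two]
      · linarith
      · ring
  have hN := hM.2 (mem p hp1 hp2) (mem (-p) (by rw [mulVec_neg, hp1, neg_zero])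
    (by simpa using hp2)) ⟨1 / 2, 1 / 2, by norm_num, by norm_num, by norm_num, by
      ext i j
      simp [Hm, mul_apply, Fin.sum_univ_two]
      ring⟩
  have z : ∀ i j, (Vᴴ * Hm p * V) i j = 0 := fun i j => by
    simpa using congrFun (congrFun hN i) j
  by_contra hne
  have D0 := sub_ne_zero.mpr hne
  have D1 : conj (V 0 i) * conj (V 1 j) - conj (V 0 j) * conj (V 1 i) ≠ 0 := by
    rw [← map_mul, ← map_mul, ← map_sub]
    exact (map_ne_zero _).mpr D0
  have a1 := z i i
  have a2 := z i j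
  have a3 := z j i
  have a4 := z j j
  simp only [Hm, mul_apply, Fin.sum_univ_two, conjTranspose_apply, of_apply, cons_val', cons_val_zero,
    cons_val_one, cons_val_fin_one, ← starRingEnd_apply] at a1 a2 a3 a4
  have b0 : (p 0 : ℂ) = 0 := by
    refine (mul_eq_zero.mp ?_).resolve_right (mul_ne_zero D0 D1)
    linear_combination (conj (V 1 j) * V 1 j) * a1 - (conj (V 1 j) * V 1 i) * a2 -
      (conj (V 1 i) * V 1 j) * a3 + (conj (V 1 i) * V 1 i) * a4
  have b1 : (p 1 : ℂ) = 0 := by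
    refine (mul_eq_zero.mp ?_).resolve_right (mul_ne_zero D0 D1)
    linear_combination (conj (V 0 j) * V 0 j) * a1 - (conj (V 0 j) * V 0 i) * a2 -
      (conj (V 0 i) * V 0 j) * a3 + (conj (V 0 i) * V 0 i) * a4
  have b2 : (p 2 + p 3 * I : ℂ) = 0 := by
    refine (mul_eq_zero.mp ?_).resolve_right (mul_ne_zero D0 D1)
    linear_combination -(conj (V 1 j) * V 0 j) * a1 + (conj (V 1 j) * V 0 i) * a2 +
      (conj (V 1 i) * V 0 j) * a3 - (conj (V 1 i) * V 0 i) * a4
  refine p0 (funext fun k => ?_)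
  fin_cases k
  · exact_mod_cast b0
  · exact_mod_cast b1
  · simpa using congrArg re b2
  · simpa using congrArg im b2

theorem rank_one {d : ℝ} {M : Fin 3 → Fin 3 → ℂ} (hM : M ∈ (C (Fin 3) d).extremePoints ℝ)
    (i j m : Fin 3) : M i j * M j m = M i m * d := by
  obtain ⟨B, hB⟩ := (psd_iff _).mp hM.1.1
  have key : ∀ k l n : Fin 3, (∀ g : Fin 3 → ℂ, ∑ x, g x = g k + g l + g n) →
      ∀ i j, B k i * B l j = B k j * B l i := by
    intro k l n hs
    refine step hM (Matrix.of ![B k, B l]) ?_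
    convert posSemidef_vecMulVec_star_self (B n) using 1
    rw [hB]
    ext i j
    simp only [Matrix.sub_apply, mul_apply, hs, vecMulVec_apply]
    simp
  have k01 := key 0 1 2 (fun g => Fin.sum_univ_three g) j m
  have k02 := key 0 2 1 (fun g => by rw [Fin.sum_univ_three]; ring) j m
  have k12 := key 1 2 0 (fun g => by rw [Fin.sum_univ_three]; ring) j m
  have e : ∀ i j, M i j = ∑ k, conj (B k i) * B k j := fun i j => by
    simpa [mul_apply] using congrFun (congrFun hB i) j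
  rw [← hM.1.2 j]
  simp only [e, Fin.sum_univ_three]
  linear_combination (conj (B 0 i) * conj (B 1 j) - conj (B 1 i) * conj (B 0 j)) * k01 +
    (conj (B 0 i) * conj (B 2 j) - conj (B 2 i) * conj (B 0 j)) * k02 +
    (conj (B 1 i) * conj (B 2 j) - conj (B 2 i) * conj (B 1 j)) * k12

def pt : Fin 3 → ℤ × ℤ := ![(0, 0), (1, 0), (0, 1)]

theorem extend (K : Finset (ℤ × ℤ)) (hK : ∀ i, pt i ∈ K) (d : ℝ) (M : Fin 3 → Fin 3 → ℂ)
    (hM : M ∈ C (Fin 3) d) : ∃ b : ℤ × ℤ → ℂ, (∀ i j, b (pt i - pt j) = M i j) ∧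
      (Matrix.of fun i j : K => b (i - j)).PosSemidef := by
  classical
  let T : Set (K → K → ℂ) := C K d ∩
    {N | ∀ i j k l : K, (i : ℤ × ℤ) - j = k - l → N i j = N k l}
  have hT : IsCompact T := (C_compact K d).inter_right (by
    simp only [Set.ofPred_forall]
    exact isClosed_iInter fun i => isClosed_iInter fun j => isClosed_iInter fun k =>
      isClosed_iInter fun l => isClosed_iInter fun _ => isClosed_eq (by fun_prop) (by fun_prop))
  have hT2 : Convex ℝ T := (C_convex K d).inter fun M hM N hN a b _ _ _ i j k l h => by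
    simp only [Pi.add_apply, Pi.smul_apply, hM i j k l h, hN i j k l h]
  let R : (K → K → ℂ) →ₗ[ℝ] (Fin 3 → Fin 3 → ℂ) :=
    { toFun := fun N i j => N ⟨pt i, hK i⟩ ⟨pt j, hK j⟩
      map_add' := fun _ _ => rfl
      map_smul' := fun _ _ => rfl }
  have sub : (C (Fin 3) d).extremePoints ℝ ⊆ R '' T := by
    intro M hM
    have d0 : 0 ≤ d := (norm_nonneg _).trans (C_bound hM.1 0 0)
    rcases d0.eq_or_lt with rfl | d0
    · refine ⟨0, ⟨⟨PosSemidef.zero, fun _ => rfl⟩, fun _ _ _ _ _ => rfl⟩, ?_⟩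
      ext i j
      exact (norm_le_zero_iff.mp (C_bound hM.1 i j)).symm
    have d1 : (d : ℂ) ≠ 0 := ofReal_ne_zero.mpr d0.ne'
    have he : ∀ i j, conj (M i j) = M j i := fun i j => hM.1.1.isHermitian.apply j i
    have un : ∀ i, conj (M i 0 / d) = (M i 0 / d)⁻¹ := fun i => by
      refine eq_inv_of_mul_eq_one_left ?_
      rw [map_div₀, he, conj_ofReal, div_mul_div_comm, rank_one hM, hM.1.2]
      field_simp
    have nz : ∀ i, M i 0 / d ≠ 0 := fun i h => by
      have := rank_one hM 0 i 0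
      rw [(div_eq_zero_iff.mp h).resolve_right d1, hM.1.2, mul_zero] at this
      exact mul_ne_zero d1 d1 this.symm
    let χ : ℤ × ℤ → ℂ := fun l => (M 1 0 / d) ^ l.1 * (M 2 0 / d) ^ l.2
    have hχ : ∀ i j, χ (i - j) = χ i * conj (χ j) := fun i j => by
      simp only [χ, map_mul, map_zpow₀, un, Prod.fst_sub, Prod.snd_sub, zpow_sub₀ (nz _),
        _root_.inv_zpow]
      ring
    have hp : ∀ i, χ (pt i) = M i 0 / d := fun i => by
      fin_cases i <;> simp [χ, pt, hM.1.2, d1]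
    refine ⟨fun i j => d * χ (i - j), ⟨⟨?_, fun i => by simp [χ]⟩, fun i j k l h => by simp only [h]⟩, ?_⟩
    · convert (posSemidef_vecMulVec_self_star fun i : K => χ i).smul d0.le using 1
      ext i j
      simp [hχ, vecMulVec_apply]
    · ext i j
      change d * χ (pt i - pt j) = _
      rw [hχ, hp, hp, map_div₀, he, conj_ofReal, div_mul_div_comm, rank_one hM]
      field_simp
  rw [← closure_convexHull_extremePoints (C_compact _ d) (C_convex _ d)] at hM
  obtain ⟨N, hN, rfl⟩ := closure_minimal (convexHull_min sub (hT2.linear_image R))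
    (hT.image R.continuous_of_finiteDimensional).isClosed hM
  let b : ℤ × ℤ → ℂ := fun l =>
    if h : ∃ p : K × K, (p.1 : ℤ × ℤ) - p.2 = l then N h.choose.1 h.choose.2 else 0
  have hb : ∀ i j : K, b (i - j) = N i j := fun i j => by
    have h : ∃ p : K × K, (p.1 : ℤ × ℤ) - p.2 = i - j := ⟨(i, j), rfl⟩
    simp only [b, dif_pos h]
    exact hN.2 _ _ _ _ h.choose_spec
  refine ⟨b, fun i j => hb ⟨_, hK i⟩ ⟨_, hK j⟩, ?_⟩
  simp only [hb]
  exact hN.1.1

end Pool.Agent.H.MP_76760e_an
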